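import Pool.Agent.MWV.Stmts

/-!
# MWV row REM: the marker of a gap which it can leave may be removed (MP_23468a_al)
-/

set_option autoImplicit false

namespace Pool.Agent.MWV.H28

open Pool.Agent.Helper14_MV Pool.Agent.Helper2_MV

variable {N : ℕ} {S : List ℕ → List ℕ → Prop}

theorem wo_ctx (w : Wo N S) (a b : List ℕ) {u v : List ℕ} (h : S u v) :
    S (a ++ (u ++ b)) (a ++ (v ++ b)) := w.app (w.refl a) (w.app h (w.refl b))

theorem W_ctx (w : Wo N S) (P Q a b : List ℕ) {u v : List ℕ} (h : S u v) :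
    S (W P Q (a ++ (u ++ b))) (W P Q (a ++ (v ++ b))) := by
  have h1 := wo_ctx w (pl P ++ 2 :: a) (b ++ 5 :: pr Q) h
  have e : ∀ u, (pl P ++ 2 :: a) ++ (u ++ (b ++ 5 :: pr Q)) = W P Q (a ++ (u ++ b)) := by
    intro u
    simp only [W, List.append_assoc, List.cons_append]
  rwa [e, e] at h1

/-! ### words of heavy letters -/

theorem hv_comm (hy : HvyStmt) (w : Wo N S) {u v : List ℕ} (hu : ∀ a ∈ u, a % 3 = 0)
    (hv : ∀ a ∈ v, a % 3 = 0) : S (u ++ v) (v ++ u) := by
  apply hy N S w
  · intro a ha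
    rcases List.mem_append.1 ha with h | h
    exacts [hu a h, hv a h]
  · intro a ha
    rcases List.mem_append.1 ha with h | h
    exacts [hv a h, hu a h]
  · intro a
    rw [List.mem_append, List.mem_append, or_comm]
  · intro a
    rw [List.count_append, List.count_append, Nat.add_comm]

theorem hv_abs (hy : HvyStmt) (w : Wo N S) {u v : List ℕ} (hu : ∀ a ∈ u, a % 3 = 0)
    (hv : ∀ a ∈ v, a ∈ u) (hc : ∀ a, v.count a % N = 0) : S (u ++ v) u := by
  apply hy N S w
  · intro a ha
    rcases List.mem_append.1 ha with h | h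
    exacts [hu a h, hu a (hv a h)]
  · exact hu
  · intro a
    rw [List.mem_append]
    exact ⟨fun h => h.elim id (hv a), Or.inl⟩
  · intro a
    rw [List.count_append, Nat.add_mod, hc a, Nat.add_zero, Nat.mod_mod]

theorem heavy_X {m h : ℕ} (hh : h % 3 = 0) : ∀ a ∈ X m h, a % 3 = 0 := by
  intro a ha
  rw [List.eq_of_mem_replicate ha]
  exact hh

theorem count_XN {N h a : ℕ} : (X N h).count a % N = 0 := by
  rw [X, List.count_replicate]
  split
  · exact Nat.mod_self N
  · exact Nat.zero_mod N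

theorem self_mem_X {m h : ℕ} (hm : 1 ≤ m) : h ∈ X m h := by
  rw [X, List.mem_replicate]
  exact ⟨by omega, rfl⟩

/-! ### the run word -/

/-- the run word behind the light `i` -/
def tl (g : ℕ → Bool) (s : List ℕ) (i : ℕ) : ℕ → List ℕ
  | 0 => []
  | l + 1 => tl g s i l ++ (mk g (i + l + 1) ++ (s ++ [3 * (i + l + 1) + 1]))

/-- the run word in front of the light `m` -/
def hdl (g : ℕ → Bool) (s : List ℕ) : ℕ → List ℕ
  | 0 => []
  | m + 1 => cr g s 0 m ++ (mk g (m + 1) ++ s)

theorem cr_hdl (g : ℕ → Bool) (s : List ℕ) (m : ℕ) : cr g s 0 m = hdl g s m ++ [3 * m + 1] := by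
  cases m with
  | zero => rfl
  | succ m =>
    rw [cr, hdl, Nat.zero_add]
    simp only [List.append_assoc]

theorem cr_split (g : ℕ → Bool) (s : List ℕ) (i l : ℕ) :
    cr g s 0 (i + l) = cr g s 0 i ++ tl g s i l := by
  induction l with
  | zero => rw [Nat.add_zero, tl, List.append_nil]
  | succ l ih =>
    rw [← Nat.add_assoc, cr, tl, ih, Nat.zero_add]
    simp only [List.append_assoc]

theorem tl_succ (g : ℕ → Bool) (s : List ℕ) (i l : ℕ) :
    tl g s i (l + 1) = mk g (i + 1) ++ (s ++ (3 * (i + 1) + 1) :: tl g s (i + 1) l) := by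
  induction l with
  | zero =>
    rw [tl, tl, tl, Nat.add_zero, List.nil_append]
  | succ l ih =>
    rw [tl, ih, tl, show i + (l + 1) + 1 = i + 1 + l + 1 by omega]
    simp only [List.append_assoc, List.cons_append]

/-- the run word around the gap `m + 1` -/
theorem cr_gap (g : ℕ → Bool) (s : List ℕ) (m l : ℕ) :
    cr g s 0 (m + 1 + l) = hdl g s m ++ (3 * m + 1) :: (mk g (m + 1) ++
      (s ++ (3 * (m + 1) + 1) :: tl g s (m + 1) l)) := by
  rw [cr_split, cr, cr_hdl, Nat.zero_add]
  simp only [List.append_assoc, List.cons_append, List.nil_append]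

theorem mem_mk {g : ℕ → Bool} {i a : ℕ} (h : a ∈ mk g i) : a = 3 * i + 3 := by
  unfold mk at h
  split at h
  · simpa using h
  · simp at h

theorem mem_cr {g : ℕ → Bool} {s : List ℕ} {m a : ℕ} (h : a ∈ cr g s 0 m) :
    a % 3 = 1 ∨ (∃ i, 1 ≤ i ∧ i ≤ m ∧ a = 3 * i + 3) ∨ a ∈ s := by
  induction m with
  | zero =>
    left
    have : a = 3 * 0 + 1 := by simpa [cr] using h
    omega
  | succ m ih =>
    rw [cr] at h
    rcases List.mem_append.1 h with h | h
    · rcases ih h with h | ⟨i, h1, h2, h3⟩ | h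
      · exact Or.inl h
      · exact Or.inr (Or.inl ⟨i, h1, by omega, h3⟩)
      · exact Or.inr (Or.inr h)
    · rcases List.mem_append.1 h with h | h
      · exact Or.inr (Or.inl ⟨m + 1, by omega, le_rfl, mem_mk h⟩)
      · rcases List.mem_append.1 h with h | h
        · exact Or.inr (Or.inr h)
        · left
          have : a = 3 * (0 + (m + 1)) + 1 := by simpa using h
          omega

theorem mem_tl {g : ℕ → Bool} {s : List ℕ} {i l a : ℕ} (h : a ∈ tl g s i l) :
    a % 3 = 1 ∨ (∃ t, i + 1 ≤ t ∧ a = 3 * t + 3) ∨ a ∈ s := by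
  induction l with
  | zero => simp [tl] at h
  | succ l ih =>
    rw [tl] at h
    rcases List.mem_append.1 h with h | h
    · exact ih h
    · rcases List.mem_append.1 h with h | h
      · exact Or.inr (Or.inl ⟨i + l + 1, by omega, mem_mk h⟩)
      · rcases List.mem_append.1 h with h | h
        · exact Or.inr (Or.inr h)
        · left
          have : a = 3 * (i + l + 1) + 1 := by simpa using h
          omega

theorem cr_congr {g g' : ℕ → Bool} {s : List ℕ} {m : ℕ} (h : ∀ i, 1 ≤ i → i ≤ m → g i = g' i) :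
    cr g s 0 m = cr g' s 0 m := by
  induction m with
  | zero => rfl
  | succ m ih =>
    rw [cr, cr, ih (fun i h1 h2 => h i h1 (by omega))]
    unfold mk
    rw [h (m + 1) (by omega) le_rfl]

theorem hdl_congr {g g' : ℕ → Bool} {s : List ℕ} {m : ℕ} (h : ∀ i, 1 ≤ i → i ≤ m → g i = g' i) :
    hdl g s m = hdl g' s m := by
  cases m with
  | zero => rfl
  | succ m =>
    rw [hdl, hdl, cr_congr (fun i h1 h2 => h i h1 (by omega))]
    unfold mk
    rw [h (m + 1) (by omega) le_rfl]

theorem tl_congr {g g' : ℕ → Bool} {s : List ℕ} {i l : ℕ} (h : ∀ t, i + 1 ≤ t → g t = g' t) :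
    tl g s i l = tl g' s i l := by
  induction l with
  | zero => rfl
  | succ l ih =>
    rw [tl, tl, ih]
    unfold mk
    rw [h (i + l + 1) (by omega)]

theorem flat_fix {f : ℕ → List ℕ} {l : List ℕ} (h : ∀ a ∈ l, f a = [a]) : l.flatMap f = l := by
  induction l with
  | nil => rfl
  | cons a l ih =>
    rw [List.flatMap_cons, h a (List.mem_cons_self ..), ih (fun b hb => h b (List.mem_cons_of_mem _ hb))]
    rfl

theorem W_flat {f : ℕ → List ℕ} (P Q L : List ℕ) (h : ∀ a, a % 3 ≠ 0 → f a = [a]) :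
    (W P Q L).flatMap f = W P Q (L.flatMap f) := by
  have h1 : (pl P).flatMap f = pl P := by
    apply flat_fix
    intro a ha
    apply h
    unfold pl at ha
    rw [List.mem_flatMap] at ha
    obtain ⟨e, -, he⟩ := ha
    simp only [List.mem_cons, List.not_mem_nil, or_false] at he
    omega
  have h2 : (pr Q).flatMap f = pr Q := by
    apply flat_fix
    intro a ha
    apply h
    unfold pr at ha
    rw [List.mem_flatMap] at ha
    obtain ⟨e, -, he⟩ := ha
    simp only [List.mem_cons, List.not_mem_nil, or_false] at he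
    omega
  unfold W
  rw [List.flatMap_append, List.flatMap_cons, List.flatMap_append, List.flatMap_cons, h1, h2,
    h 2 (by omega), h 5 (by omega)]
  rfl

/-! ### removal between two neighbouring lights -/

theorem mem_pl {P : List ℕ} {e : ℕ} (h : e ∈ P) : 3 * e + 1 ∈ pl P := by
  unfold pl
  rw [List.mem_flatMap]
  exact ⟨e, h, by simp⟩

theorem mem_pr {Q : List ℕ} {e : ℕ} (h : e ∈ Q) : 3 * e + 1 ∈ pr Q := by
  unfold pr
  rw [List.mem_flatMap]
  exact ⟨e, h, by simp⟩

/-- a word `r` with the letters of `t` and counts divisible by `N` may be removed between the lights `m`,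
`m + 1`, if `t` is next to them on both sides -/
def RmT (N : ℕ) (S : List ℕ → List ℕ → Prop) (P Q : List ℕ) (m : ℕ) (t : List ℕ) : Prop :=
  ∀ r u v : List ℕ, (∀ a ∈ r, a ∈ t) → (∀ a, r.count a % N = 0) → (r = [] ∨ ∀ a ∈ t, a ∈ r) →
    S (W P Q (u ++ (t ++ (3 * m + 1) :: (r ++ (3 * (m + 1) + 1) :: (t ++ v)))))
      (W P Q (u ++ (t ++ (3 * m + 1) :: (3 * (m + 1) + 1) :: (t ++ v))))

theorem count_flat (t : List ℕ) (a m : ℕ) :
    (List.replicate m t).flatten.count a = m * t.count a := by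
  induction m with
  | zero => simp
  | succ m ih =>
    rw [List.replicate_succ, List.flatten_cons, List.count_append, ih, Nat.succ_mul, Nat.add_comm]

theorem mem_flat {t : List ℕ} {a m : ℕ} (hm : 1 ≤ m) :
    a ∈ (List.replicate m t).flatten ↔ a ∈ t := by
  rw [List.mem_flatten]
  constructor
  · rintro ⟨l, hl, ha⟩
    rw [List.eq_of_mem_replicate hl] at ha
    exact ha
  · intro h
    exact ⟨t, List.mem_replicate.2 ⟨by omega, rfl⟩, h⟩

theorem X_flat {f : ℕ → List ℕ} {h : ℕ} (m : ℕ) :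
    (X m h).flatMap f = (List.replicate m (f h)).flatten := by
  induction m with
  | zero => rfl
  | succ m ih =>
    rw [X, List.replicate_succ, List.flatMap_cons, show List.replicate m h = X m h from rfl, ih,
      List.replicate_succ, List.flatten_cons]

theorem rmT_one (hy : HvyStmt) (hE : EndStmt) (w : Wo N S) {P Q : List ℕ}
    (hr : Run N S P Q (fun i => decide (i ≠ 1)) 1) (t : List ℕ) (ht : ∀ a ∈ t, a % 3 = 0) :
    RmT N S P Q 0 t := by
  intro r u v hr1 hr2 hr3
  rcases hr3 with rfl | hr3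
  · exact w.refl _
  have hN := w.pos
  unfold Run at hr
  have e1 : cr (fun i => decide (i ≠ 1)) [] 0 1 = [1, 4] := by
    simp [cr, mk]
  have e2 : cr (fun i => decide (i ≠ 1)) (X N 0) 0 1 = 1 :: (X N 0 ++ [4]) := by
    simp [cr, mk]
  rw [e1, e2] at hr
  have hs := w.sub (fun a => if a = 0 then t else [a]) (by
    intro b hb a ha
    by_cases h0 : b = 0
    · simp only [h0, if_true] at ha
      exact ht a ha
    · simp only [h0, if_false] at ha
      rw [List.mem_singleton.1 ha]; exact hb) hr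
  rw [W_flat P Q _ (by intro a ha; rw [if_neg (by omega)]),
    W_flat P Q _ (by intro a ha; rw [if_neg (by omega)])] at hs
  generalize hT : (List.replicate N t).flatten = T at hs
  have eX : (X N 0).flatMap (fun a => if a = 0 then t else [a]) = T := by
    rw [X_flat, ← hT]
    simp
  have hT1 : ∀ a, a ∈ T ↔ a ∈ t := by
    intro a
    rw [← hT]
    exact mem_flat hN
  have hT2 : ∀ a, T.count a % N = 0 := by
    intro a
    rw [← hT, count_flat]
    exact Nat.mul_mod_right N _
  have hTh : ∀ a ∈ T, a % 3 = 0 := fun a ha => ht a ((hT1 a).1 ha)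
  have e3 : (X N 0 ++ ([1, 4] ++ X N 0)).flatMap (fun a => if a = 0 then t else [a]) =
      T ++ ([1, 4] ++ T) := by
    rw [List.flatMap_append, List.flatMap_append, eX]
    rfl
  have e4 : (X N 0 ++ (1 :: (X N 0 ++ [4]) ++ X N 0)).flatMap
      (fun a => if a = 0 then t else [a]) = T ++ (1 :: (T ++ 4 :: T)) := by
    rw [List.flatMap_append, List.flatMap_append, List.flatMap_cons, List.flatMap_append, eX]
    simp
  rw [e3, e4] at hs
  have h5 := hE N S w P Q _ _ (u ++ t) (t ++ v) (by
    intro a ha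
    have : a ∈ T ∨ a = 1 ∨ a = 4 := by
      simp only [List.mem_append, List.mem_cons, List.not_mem_nil, or_false] at ha
      rcases ha with (h1 | (h1 | h1) | h1) | h1 | h1 | h1 | h1 | h1
      all_goals first
        | exact Or.inl h1
        | exact Or.inr (Or.inl h1)
        | exact Or.inr (Or.inr h1)
    rcases this with h1 | h1 | h1
    · have := hTh a h1
      omega
    · omega
    · omega) hs
  have hX1 : S (t ++ T) t := hv_abs hy w ht (fun a ha => (hT1 a).1 ha) hT2
  have hX2 : S (T ++ t) t := w.trans (hv_comm hy w hTh ht) hX1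
  have hX3 : S r T := by
    apply hy N S w r T (fun a ha => ht a (hr1 a ha)) hTh
    · intro a
      rw [hT1]
      exact ⟨hr1 a, hr3 a⟩
    · intro a
      rw [hr2, hT2]
  show S (W P Q (u ++ (t ++ 1 :: (r ++ 4 :: (t ++ v))))) (W P Q (u ++ (t ++ 1 :: 4 :: (t ++ v))))
  have s0 : S (W P Q (u ++ (t ++ 1 :: (r ++ 4 :: (t ++ v)))))
      (W P Q (u ++ (t ++ 1 :: (T ++ 4 :: (t ++ v))))) := by
    have a1 := W_ctx w P Q (u ++ (t ++ [1])) (4 :: (t ++ v)) hX3
    have e : ∀ r : List ℕ, u ++ (t ++ [1]) ++ (r ++ 4 :: (t ++ v)) =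
        u ++ (t ++ 1 :: (r ++ 4 :: (t ++ v))) := by
      intro r
      simp only [List.append_assoc, List.cons_append, List.nil_append]
    rw [e, e] at a1
    exact a1
  have s1 : S (W P Q (u ++ (t ++ 1 :: 4 :: (t ++ v)))) (W P Q (u ++ (t ++ T) ++ ([1, 4] ++
      (T ++ t) ++ v))) := by
    have a1 := W_ctx w P Q u (1 :: 4 :: (t ++ v)) (w.symm hX1)
    have a2 := W_ctx w P Q (u ++ (t ++ T) ++ [1, 4]) v (w.symm hX2)
    refine w.trans a1 ?_
    have e5 : u ++ ((t ++ T) ++ 1 :: 4 :: (t ++ v)) = u ++ (t ++ T) ++ [1, 4] ++ (t ++ v) := by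
      simp only [List.append_assoc, List.cons_append, List.nil_append]
    have e6 : u ++ (t ++ T) ++ ([1, 4] ++ (T ++ t) ++ v) =
        u ++ (t ++ T) ++ [1, 4] ++ ((T ++ t) ++ v) := by
      simp only [List.append_assoc, List.cons_append, List.nil_append]
    rw [e5, e6]
    exact a2
  have s2 : S (W P Q (u ++ (t ++ T) ++ (1 :: (T ++ 4 :: (T ++ t)) ++ v)))
      (W P Q (u ++ (t ++ 1 :: (T ++ 4 :: (t ++ v))))) := by
    have a1 := W_ctx w P Q u (1 :: (T ++ 4 :: (T ++ t)) ++ v) hX1
    have a2 := W_ctx w P Q (u ++ (t ++ 1 :: (T ++ [4]))) v hX2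
    have e5 : u ++ (t ++ T) ++ (1 :: (T ++ 4 :: (T ++ t)) ++ v) =
        u ++ ((t ++ T) ++ (1 :: (T ++ 4 :: (T ++ t)) ++ v)) := by
      simp only [List.append_assoc, List.cons_append]
    have e6 : u ++ (t ++ (1 :: (T ++ 4 :: (T ++ t)) ++ v)) =
        u ++ (t ++ 1 :: (T ++ [4])) ++ ((T ++ t) ++ v) := by
      simp only [List.append_assoc, List.cons_append, List.nil_append]
    have e7 : u ++ (t ++ 1 :: (T ++ [4])) ++ (t ++ v) = u ++ (t ++ 1 :: (T ++ 4 :: (t ++ v))) := by
      simp only [List.append_assoc, List.cons_append, List.nil_append]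
    rw [e5]
    refine w.trans a1 ?_
    rw [e6, ← e7]
    exact a2
  have e8 : u ++ t ++ (T ++ ([1, 4] ++ T) ++ (t ++ v)) =
      u ++ (t ++ T) ++ ([1, 4] ++ (T ++ t) ++ v) := by
    simp only [List.append_assoc, List.cons_append, List.nil_append]
  have e9 : u ++ t ++ (T ++ 1 :: (T ++ 4 :: T) ++ (t ++ v)) =
      u ++ (t ++ T) ++ (1 :: (T ++ 4 :: (T ++ t)) ++ v) := by
    simp only [List.append_assoc, List.cons_append]
  rw [e8, e9] at h5
  exact w.trans s0 (w.symm (w.trans s1 (w.trans h5 s2)))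

theorem lgt_append (a b : List ℕ) : lgt (a ++ b) = lgt a ++ lgt b := List.filter_append ..

theorem lgt_heavy {u : List ℕ} (h : ∀ a ∈ u, a % 3 = 0) : lgt u = [] := by
  unfold lgt
  rw [List.filter_eq_nil_iff]
  intro a ha
  simp [h a ha]

theorem lgt_light {e : ℕ} : lgt [3 * e + 1] = [3 * e + 1] := by
  unfold lgt
  rw [List.filter_eq_self]
  intro a ha
  rw [List.mem_singleton.1 ha]
  simp only [decide_eq_true_eq]
  omega

/-- removal of `h^N` by `Free` -/
theorem free_rm {P Q : List ℕ} {k m : ℕ} (w : Wo N S) (hf : Free N S k) (hk : 2 ≤ k)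
    (h1 : m ∈ P ++ Q) (h2 : m + 1 ∈ P ++ Q) {h : ℕ} (hh : h % 3 = 0) (u v a1 a2 b1 b2 : List ℕ)
    (ha1 : ∀ a ∈ a1, a % 3 = 0) (ha2 : ∀ a ∈ a2, a % 3 = 0) (hb1 : ∀ a ∈ b1, a % 3 = 0)
    (hb2 : ∀ a ∈ b2, a % 3 = 0) :
    S (W P Q (u ++ h :: (a1 ++ (3 * m + 1) :: (a2 ++ (X N h ++ (b1 ++ (3 * (m + 1) + 1) ::
        (b2 ++ h :: v)))))))
      (W P Q (u ++ h :: (a1 ++ (3 * m + 1) :: (a2 ++ (b1 ++ (3 * (m + 1) + 1) ::
        (b2 ++ h :: v)))))) := by
  have key : ∀ e, e ∈ P ++ Q → 3 * e + 1 ∈ pl P ++ 2 :: u ∨ 3 * e + 1 ∈ v ++ 5 :: pr Q := by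
    intro e he
    rcases List.mem_append.1 he with he | he
    · exact Or.inl (List.mem_append_left _ (mem_pl he))
    · exact Or.inr (List.mem_append_right _ (List.mem_cons_of_mem _ (mem_pr he)))
  have hl : lgt ((a1 ++ (3 * m + 1) :: a2) ++ (b1 ++ (3 * (m + 1) + 1) :: b2)) =
      [3 * m + 1, 3 * (m + 1) + 1] := by
    have e1 : a1 ++ (3 * m + 1) :: a2 = a1 ++ ([3 * m + 1] ++ a2) := rfl
    have e2 : b1 ++ (3 * (m + 1) + 1) :: b2 = b1 ++ ([3 * (m + 1) + 1] ++ b2) := rfl
    rw [e1, e2, lgt_append, lgt_append, lgt_append, lgt_append, lgt_append, lgt_heavy ha1,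
      lgt_heavy ha2, lgt_heavy hb1, lgt_heavy hb2, lgt_light, lgt_light]
    rfl
  have h3 := hf (pl P ++ 2 :: u) (v ++ 5 :: pr Q) (a1 ++ (3 * m + 1) :: a2)
    (b1 ++ (3 * (m + 1) + 1) :: b2) h hh
    (by rw [hl]; exact hk) (by
      rw [hl]
      simp only [List.nodup_cons, List.mem_cons, List.not_mem_nil, or_false, not_false_iff,
        List.nodup_nil, and_true]
      omega) (by
      intro c hc hc3
      simp only [List.mem_append, List.mem_cons] at hc
      rcases hc with (hc | hc | hc) | hc | hc | hc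
      · exact absurd (ha1 c hc) hc3
      · rw [hc]; exact key m h1
      · exact absurd (ha2 c hc) hc3
      · exact absurd (hb1 c hc) hc3
      · rw [hc]; exact key (m + 1) h2
      · exact absurd (hb2 c hc) hc3)
  have e1 : (pl P ++ 2 :: u) ++ h :: ((a1 ++ (3 * m + 1) :: a2) ++
      ((b1 ++ (3 * (m + 1) + 1) :: b2) ++ h :: (v ++ 5 :: pr Q))) =
      W P Q (u ++ h :: (a1 ++ (3 * m + 1) :: (a2 ++ (b1 ++ (3 * (m + 1) + 1) ::
        (b2 ++ h :: v))))) := by
    simp only [W, List.append_assoc, List.cons_append]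
  have e2 : (pl P ++ 2 :: u) ++ h :: ((a1 ++ (3 * m + 1) :: a2) ++ (X N h ++
      ((b1 ++ (3 * (m + 1) + 1) :: b2) ++ h :: (v ++ 5 :: pr Q)))) =
      W P Q (u ++ h :: (a1 ++ (3 * m + 1) :: (a2 ++ (X N h ++ (b1 ++ (3 * (m + 1) + 1) ::
        (b2 ++ h :: v)))))) := by
    simp only [W, List.append_assoc, List.cons_append]
  rw [e1, e2] at h3
  exact w.symm h3

theorem rmT_free1 (hy : HvyStmt) (w : Wo N S) {P Q : List ℕ} {k m : ℕ} (hf : Free N S k)
    (hk : 2 ≤ k) (h1 : m ∈ P ++ Q) (h2 : m + 1 ∈ P ++ Q) {h : ℕ} (hh : h % 3 = 0) :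
    RmT N S P Q m [h] := by
  intro r u v hr1 hr2 hr3
  rcases hr3 with rfl | hr3
  · exact w.refl _
  have hN := w.pos
  have hX3 : S r (X N h) := by
    apply hy N S w r (X N h) (fun a ha => by rw [List.mem_singleton.1 (hr1 a ha)]; exact hh)
      (heavy_X hh)
    · intro a
      constructor
      · intro ha
        rw [List.mem_singleton.1 (hr1 a ha)]
        exact self_mem_X hN
      · intro ha
        rw [List.eq_of_mem_replicate ha]
        exact hr3 h (List.mem_singleton_self h)
    · intro a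
      rw [hr2, count_XN]
  have a1 := W_ctx w P Q (u ++ ([h] ++ [3 * m + 1])) ((3 * (m + 1) + 1) :: ([h] ++ v)) hX3
  have a2 := free_rm w hf hk h1 h2 hh u v [] [] [] [] (by simp) (by simp) (by simp) (by simp)
  have e1 : u ++ ([h] ++ [3 * m + 1]) ++ (r ++ (3 * (m + 1) + 1) :: ([h] ++ v)) =
      u ++ ([h] ++ (3 * m + 1) :: (r ++ (3 * (m + 1) + 1) :: ([h] ++ v))) := by
    simp only [List.append_assoc, List.cons_append, List.nil_append]
  have e2 : u ++ ([h] ++ [3 * m + 1]) ++ (X N h ++ (3 * (m + 1) + 1) :: ([h] ++ v)) =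
      u ++ h :: ([] ++ (3 * m + 1) :: ([] ++ (X N h ++ ([] ++ (3 * (m + 1) + 1) ::
        ([] ++ h :: v))))) := by
    simp only [List.append_assoc, List.cons_append, List.nil_append]
  rw [e1, e2] at a1
  exact w.trans a1 a2

theorem rmT_free2 (hy : HvyStmt) (w : Wo N S) {P Q : List ℕ} {k m : ℕ} (hf : Free N S k)
    (hk : 2 ≤ k) (h1 : m ∈ P ++ Q) (h2 : m + 1 ∈ P ++ Q) {c : ℕ} (hc : c % 3 = 0) :
    RmT N S P Q m [c, 0] := by
  intro r u v hr1 hr2 hr3
  rcases hr3 with rfl | hr3
  · exact w.refl _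
  have hN := w.pos
  have hX3 : S r (X N c ++ X N 0) := by
    apply hy N S w r (X N c ++ X N 0)
    · intro a ha
      have := hr1 a ha
      simp only [List.mem_cons, List.not_mem_nil, or_false] at this
      rcases this with rfl | rfl
      · exact hc
      · rfl
    · intro a ha
      rcases List.mem_append.1 ha with ha | ha
      · exact heavy_X hc a ha
      · exact heavy_X rfl a ha
    · intro a
      constructor
      · intro ha
        have := hr1 a ha
        simp only [List.mem_cons, List.not_mem_nil, or_false] at this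
        rcases this with rfl | rfl
        · exact List.mem_append_left _ (self_mem_X hN)
        · exact List.mem_append_right _ (self_mem_X hN)
      · intro ha
        rcases List.mem_append.1 ha with ha | ha
        · rw [List.eq_of_mem_replicate ha]
          exact hr3 c (by simp)
        · rw [List.eq_of_mem_replicate ha]
          exact hr3 0 (by simp)
    · intro a
      rw [hr2, List.count_append, Nat.add_mod, count_XN, count_XN]
      exact (Nat.zero_mod N).symm
  have a1 := W_ctx w P Q (u ++ ([c, 0] ++ [3 * m + 1])) ((3 * (m + 1) + 1) :: ([c, 0] ++ v)) hX3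
  have a2 := free_rm w hf hk h1 h2 (h := 0) rfl (u ++ [c]) v [] (X N c) [] [c] (by simp)
    (heavy_X hc) (by simp) (by simpa using hc)
  have a3 := free_rm w hf hk h1 h2 hc u (0 :: v) [0] [] [] [] (by simp) (by simp) (by simp)
    (by simp)
  have e1 : u ++ ([c, 0] ++ [3 * m + 1]) ++ (r ++ (3 * (m + 1) + 1) :: ([c, 0] ++ v)) =
      u ++ ([c, 0] ++ (3 * m + 1) :: (r ++ (3 * (m + 1) + 1) :: ([c, 0] ++ v))) := by
    simp only [List.append_assoc, List.cons_append, List.nil_append]
  have e2 : u ++ ([c, 0] ++ [3 * m + 1]) ++ ((X N c ++ X N 0) ++ (3 * (m + 1) + 1) ::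
      ([c, 0] ++ v)) = (u ++ [c]) ++ 0 :: ([] ++ (3 * m + 1) :: (X N c ++ (X N 0 ++ ([] ++
      (3 * (m + 1) + 1) :: ([c] ++ 0 :: v))))) := by
    simp only [List.append_assoc, List.cons_append, List.nil_append]
  have e3 : (u ++ [c]) ++ 0 :: ([] ++ (3 * m + 1) :: (X N c ++ ([] ++ (3 * (m + 1) + 1) ::
      ([c] ++ 0 :: v)))) = u ++ c :: ([0] ++ (3 * m + 1) :: ([] ++ (X N c ++ ([] ++
      (3 * (m + 1) + 1) :: ([] ++ c :: (0 :: v)))))) := by
    simp only [List.append_assoc, List.cons_append, List.nil_append]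
  have e4 : u ++ c :: ([0] ++ (3 * m + 1) :: ([] ++ ([] ++ (3 * (m + 1) + 1) :: ([] ++ c ::
      (0 :: v))))) = u ++ ([c, 0] ++ (3 * m + 1) :: (3 * (m + 1) + 1) :: ([c, 0] ++ v)) := by
    simp only [List.cons_append, List.nil_append]
  rw [e1, e2] at a1
  rw [e3] at a2
  rw [e4] at a3
  exact w.trans a1 (w.trans a2 a3)

/-! ### the theorem -/

/-- insertion of a word with counts divisible by `N` into a word of heavy letters -/
theorem hv_ins (hy : HvyStmt) (w : Wo N S) {u1 u2 t : List ℕ} (h1 : ∀ a ∈ u1, a % 3 = 0)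
    (h2 : ∀ a ∈ u2, a % 3 = 0) (ht : ∀ a ∈ t, a ∈ u1 ++ u2) (hc : ∀ a, t.count a % N = 0) :
    S (u1 ++ u2) (u1 ++ (t ++ u2)) := by
  have hh : ∀ a ∈ u1 ++ u2, a % 3 = 0 := by
    intro a ha
    rcases List.mem_append.1 ha with h | h
    exacts [h1 a h, h2 a h]
  apply hy N S w _ _ hh
  · intro a ha
    rcases List.mem_append.1 ha with h | h
    · exact h1 a h
    · rcases List.mem_append.1 h with h | h
      · exact hh a (ht a h)
      · exact h2 a h
  · intro a
    constructor
    · intro h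
      rcases List.mem_append.1 h with h | h
      · exact List.mem_append_left _ h
      · exact List.mem_append_right _ (List.mem_append_right _ h)
    · intro h
      rcases List.mem_append.1 h with h | h
      · exact List.mem_append_left _ h
      · rcases List.mem_append.1 h with h | h
        · exact ht a h
        · exact List.mem_append_right _ h
  · intro a
    rw [List.count_append, List.count_append, List.count_append]
    have h3 := hc a
    rw [show u1.count a + (t.count a + u2.count a) = t.count a + (u1.count a + u2.count a) by omega,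
      Nat.add_mod (t.count a), h3, Nat.zero_add, Nat.mod_mod]

/-- the substitution for the two neighbouring markers -/
def fs (m α γ : ℕ) (a : ℕ) : List ℕ :=
  if a = 3 * m + 3 then (3 * m + 3) :: X α (3 * (m + 1) + 3)
  else if a = 3 * (m + 2) + 3 then X γ (3 * (m + 1) + 3) ++ [3 * (m + 2) + 3] else [a]

theorem fs_light (m α γ : ℕ) : ∀ a, a % 3 ≠ 0 → fs m α γ a = [a] := by
  intro a ha
  unfold fs
  rw [if_neg (by omega), if_neg (by omega)]

theorem fs_zero (m α γ : ℕ) : fs m α γ 0 = [0] := by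
  unfold fs
  rw [if_neg (by omega), if_neg (by omega)]

theorem fs_heavy (m α γ : ℕ) : ∀ h, h % 3 = 0 → ∀ a ∈ fs m α γ h, a % 3 = 0 := by
  intro h hh a ha
  unfold fs at ha
  split at ha
  · rcases List.mem_cons.1 ha with h1 | h1
    · omega
    · rw [List.eq_of_mem_replicate h1]; omega
  · split at ha
    · rcases List.mem_append.1 ha with h1 | h1
      · rw [List.eq_of_mem_replicate h1]; omega
      · rw [List.mem_singleton.1 h1]; omega
    · rw [List.mem_singleton.1 ha]; exact hh

/-- the markers except the one of the gap `m + 1` -/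
def g0 (m : ℕ) : ℕ → Bool := fun i => decide (i ≠ m + 1)

/-- all markers -/
def g1 : ℕ → Bool := fun _ => true

theorem g0_lt {m : ℕ} : ∀ i, 1 ≤ i → i ≤ m → g0 m i = g1 i := by
  intro i _ h
  unfold g0 g1
  simp only [decide_eq_true_eq]
  omega

theorem g0_gt {m : ℕ} : ∀ t, m + 1 + 1 ≤ t → g0 m t = g1 t := by
  intro i h
  unfold g0 g1
  simp only [decide_eq_true_eq]
  omega

/-- the part in front of the light `m` after the substitution -/
theorem hdl_fs {m α γ : ℕ} {s : List ℕ} (hs : ∀ a ∈ s, a = 0) :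
    (hdl (g0 m) s m).flatMap (fs m α γ) = hdl g1 s m ∧ m = 0 ∨
    ∃ A, (hdl (g0 m) s m).flatMap (fs m α γ) = A ++ (3 * m + 3) :: (X α (3 * (m + 1) + 3) ++ s) ∧
      hdl g1 s m = A ++ (3 * m + 3) :: s ∧ 1 ≤ m := by
  rw [hdl_congr g0_lt]
  cases m with
  | zero => exact Or.inl ⟨rfl, rfl⟩
  | succ m =>
    right
    refine ⟨cr g1 s 0 m, ?_, ?_, by omega⟩
    · rw [hdl, List.flatMap_append, List.flatMap_append]
      have e1 : (cr g1 s 0 m).flatMap (fs (m + 1) α γ) = cr g1 s 0 m := by
        apply flat_fix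
        intro a ha
        rcases mem_cr ha with h | ⟨i, h1, h2, h3⟩ | h
        · exact fs_light _ _ _ a (by omega)
        · unfold fs
          rw [if_neg (by omega), if_neg (by omega)]
        · rw [hs a h]; exact fs_zero _ _ _
      have e2 : s.flatMap (fs (m + 1) α γ) = s := by
        apply flat_fix
        intro a ha
        rw [hs a ha]; exact fs_zero _ _ _
      have e3 : (mk g1 (m + 1)).flatMap (fs (m + 1) α γ) =
          (3 * (m + 1) + 3) :: X α (3 * (m + 1 + 1) + 3) := by
        show [3 * (m + 1) + 3].flatMap (fs (m + 1) α γ) = _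
        rw [List.flatMap_cons, List.flatMap_nil, List.append_nil]
        unfold fs
        rw [if_pos rfl]
      rw [e1, e2, e3]
      simp only [List.cons_append]
    · rfl

/-- the part behind the light `m + 1` after the substitution -/
theorem tl_fs {m l α γ : ℕ} {s : List ℕ} (hs : ∀ a ∈ s, a = 0) :
    (tl (g0 m) s (m + 1) l).flatMap (fs m α γ) = [] ∧ tl g1 s (m + 1) l = [] ∧ l = 0 ∨
    ∃ B, (tl (g0 m) s (m + 1) l).flatMap (fs m α γ) =
        X γ (3 * (m + 1) + 3) ++ (3 * (m + 2) + 3) :: (s ++ B) ∧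
      tl g1 s (m + 1) l = (3 * (m + 2) + 3) :: (s ++ B) ∧ 1 ≤ l := by
  rw [tl_congr g0_gt]
  cases l with
  | zero => exact Or.inl ⟨rfl, rfl, rfl⟩
  | succ l =>
    right
    refine ⟨(3 * (m + 2) + 1) :: tl g1 s (m + 2) l, ?_, ?_, by omega⟩
    · rw [tl_succ, List.flatMap_append, List.flatMap_append, List.flatMap_cons]
      have e1 : (tl g1 s (m + 1 + 1) l).flatMap (fs m α γ) = tl g1 s (m + 1 + 1) l := by
        apply flat_fix
        intro a ha
        rcases mem_tl ha with h | ⟨i, h1, h3⟩ | h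
        · exact fs_light _ _ _ a (by omega)
        · unfold fs
          rw [if_neg (by omega), if_neg (by omega)]
        · rw [hs a h]; exact fs_zero _ _ _
      have e2 : s.flatMap (fs m α γ) = s := by
        apply flat_fix
        intro a ha
        rw [hs a ha]; exact fs_zero _ _ _
      have e3 : (mk g1 (m + 1 + 1)).flatMap (fs m α γ) =
          X γ (3 * (m + 1) + 3) ++ [3 * (m + 2) + 3] := by
        show [3 * (m + 1 + 1) + 3].flatMap (fs m α γ) = _
        rw [List.flatMap_cons, List.flatMap_nil, List.append_nil]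
        unfold fs
        rw [if_neg (by omega), if_pos rfl]
      rw [e1, e2, e3, fs_light _ _ _ _ (by omega)]
      simp only [List.append_assoc, List.cons_append, List.nil_append]
    · rw [tl_succ]
      rfl

theorem fs_no2 {m α γ : ℕ} {L : List ℕ} (h : ∀ a ∈ L, a % 3 ≠ 2) :
    ∀ b ∈ L.flatMap (fs m α γ), b % 3 ≠ 2 := by
  intro b hb
  rw [List.mem_flatMap] at hb
  obtain ⟨a, ha, hb⟩ := hb
  by_cases h0 : a % 3 = 0
  · have := fs_heavy m α γ a h0 b hb
    omega
  · rw [fs_light m α γ a h0] at hb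
    rw [List.mem_singleton.1 hb]
    exact h a ha

theorem cr_no2 {g : ℕ → Bool} {s : List ℕ} {k : ℕ} (hs : ∀ a ∈ s, a = 0) :
    ∀ a ∈ X N 0 ++ (cr g s 0 k ++ X N 0), a % 3 ≠ 2 := by
  intro a ha
  rcases List.mem_append.1 ha with h | h
  · rw [List.eq_of_mem_replicate h]; omega
  · rcases List.mem_append.1 h with h | h
    · rcases mem_cr h with h | ⟨i, h1, h2, h3⟩ | h
      · omega
      · omega
      · rw [hs a h]; omega
    · rw [List.eq_of_mem_replicate h]; omega

theorem W_app (w : Wo N S) (P Q t : List ℕ) {a a' b b' : List ℕ} (h : S a a') (h' : S b b') :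
    S (W P Q (a ++ (t ++ b))) (W P Q (a' ++ (t ++ b'))) := by
  have h1 : S (a ++ (t ++ b)) (a' ++ (t ++ b')) := w.app h (w.app (w.refl t) h')
  have h2 := W_ctx w P Q [] [] h1
  simpa using h2

/-- the powers of `c X` -/
theorem cX_norm (hy : HvyStmt) (w : Wo N S) {c α : ℕ} (hc : c % 3 = 0) (hc0 : c ≠ 0) (hα : 1 ≤ α)
    {v : List ℕ} (hv : v.Perm (X α c ++ X N 0)) : S (List.replicate α (c :: X N 0)).flatten v := by
  have hN := w.pos
  have hh : ∀ a ∈ c :: X N 0, a % 3 = 0 := by
    intro a ha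
    rcases List.mem_cons.1 ha with h | h
    · rw [h]; exact hc
    · rw [List.eq_of_mem_replicate h]
  have m1 : ∀ a, a ∈ v ↔ a = c ∨ a = 0 := by
    intro a
    rw [hv.mem_iff, List.mem_append]
    constructor
    · rintro (h | h)
      · exact Or.inl (List.eq_of_mem_replicate h)
      · exact Or.inr (List.eq_of_mem_replicate h)
    · rintro (h | h)
      · rw [h]; exact Or.inl (self_mem_X hα)
      · rw [h]; exact Or.inr (self_mem_X hN)
  have m2 : ∀ a, a ∈ c :: X N 0 ↔ a = c ∨ a = 0 := by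
    intro a
    rw [List.mem_cons]
    constructor
    · rintro (h | h)
      · exact Or.inl h
      · exact Or.inr (List.eq_of_mem_replicate h)
    · rintro (h | h)
      · exact Or.inl h
      · rw [h]; exact Or.inr (self_mem_X hN)
  apply hy N S w
  · intro a ha
    exact hh a ((mem_flat hα).1 ha)
  · intro a ha
    rcases (m1 a).1 ha with h | h
    · rw [h]; exact hc
    · rw [h]
  · intro a
    rw [mem_flat hα, m1, m2]
  · intro a
    rw [count_flat, hv.count_eq, List.count_append]
    have h1 : (c :: X N 0).count a = (X N 0).count a + if c = a then 1 else 0 := by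
      rw [List.count_cons]
      by_cases h : c = a <;> simp [h]
    have h2 : (X α c).count a = if c = a then α else 0 := by
      rw [X, List.count_replicate]
      by_cases h : c = a <;> simp [h]
    rw [h1, h2, Nat.mul_add]
    have h3 : (X N 0).count a % N = 0 := count_XN
    have h4 : α * (X N 0).count a % N = 0 := by
      rw [Nat.mul_mod, h3, Nat.mul_zero, Nat.zero_mod]
    have h5 : (α * if c = a then 1 else 0) = if c = a then α else 0 := by
      by_cases h : c = a <;> simp [h]
    rw [h5, Nat.add_mod, h4, Nat.add_mod (if c = a then α else 0), h3, Nat.zero_add, Nat.add_zero]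

theorem rem_main (hy : HvyStmt) (hC : CtxStmt) (hE : EndStmt) (w : Wo N S) {P Q : List ℕ}
    {m l : ℕ} (hf : Free N S (m + 1 + l)) (hP : (P ++ Q).Perm (List.range (m + 1 + l + 1)))
    (hJ : Jp N S P Q (m + 1)) (hr : Run N S P Q (g0 m) (m + 1 + l)) :
    Run N S P Q g1 (m + 1 + l) := by
  have hN := w.pos
  obtain ⟨α, β, γ, hα, hγ, hβ, hJ⟩ := hJ
  rw [Nat.add_sub_cancel] at hJ
  have hc : (3 * (m + 1) + 3) % 3 = 0 := by omega
  have hc0 : 3 * (m + 1) + 3 ≠ 0 := by omega
  have hc1 : ∀ α γ, fs m α γ (3 * (m + 1) + 3) = [3 * (m + 1) + 3] := by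
    intro α γ
    unfold fs
    rw [if_neg (by omega), if_neg (by omega)]
  -- removal lemmas
  have hrm : RmT N S P Q m [3 * (m + 1) + 3] ∧ RmT N S P Q m [0] ∧
      RmT N S P Q m [3 * (m + 1) + 3, 0] := by
    by_cases hk : m + 1 + l = 1
    · obtain rfl : m = 0 := by omega
      obtain rfl : l = 0 := by omega
      have hr' : Run N S P Q (fun i => decide (i ≠ 1)) 1 := hr
      exact ⟨rmT_one hy hE w hr' _ (by simp), rmT_one hy hE w hr' _ (by simp),
        rmT_one hy hE w hr' _ (by simp)⟩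
    · have m1 : m ∈ P ++ Q := hP.mem_iff.2 (List.mem_range.2 (by omega))
      have m2 : m + 1 ∈ P ++ Q := hP.mem_iff.2 (List.mem_range.2 (by omega))
      exact ⟨rmT_free1 hy w hf (by omega) m1 m2 hc, rmT_free1 hy w hf (by omega) m1 m2 rfl,
        rmT_free2 hy w hf (by omega) m1 m2 hc⟩
  obtain ⟨rc, r0, rc0⟩ := hrm
  generalize hcc : 3 * (m + 1) + 3 = c at *
  generalize hzz : 3 * m + 1 = z at *
  generalize hzz' : 3 * (m + 1) + 1 = z' at *
  have hcr : ∀ s, cr g1 s 0 (m + 1 + l) = hdl g1 s m ++ z :: (c :: (s ++ z' :: tl g1 s (m + 1) l)) := by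
    intro s
    rw [cr_gap, ← hzz, ← hzz', ← hcc]
    rfl
  have hcr0 : ∀ s, cr (g0 m) s 0 (m + 1 + l) =
      hdl (g0 m) s m ++ z :: (s ++ z' :: tl (g0 m) s (m + 1) l) := by
    intro s
    rw [cr_gap, ← hzz, ← hzz']
    have : mk (g0 m) (m + 1) = [] := by
      unfold mk g0
      simp
    rw [this]
    rfl
  have hnd : (P ++ Q).Nodup := hP.nodup_iff.2 List.nodup_range
  -- the identity of the marker in every context
  have J1 : ∀ a b : List ℕ, S (W P Q (a ++ ([z, c, z'] ++ b)))
      (W P Q (a ++ ((X α c ++ z :: (X β c ++ z' :: X γ c)) ++ b))) := by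
    intro a b
    apply hC N S w P Q (fun e => decide (e + 1 = m + 1 ∨ e = m + 1)) _ _ a b hnd _ hJ
    intro a ha
    simp only [List.mem_append, List.mem_cons, List.not_mem_nil, or_false] at ha
    have hX : ∀ {k a : ℕ}, a ∈ X k c → a = c := fun ha => List.eq_of_mem_replicate ha
    rcases ha with (h | h | h) | h | h | h | h | h
    · omega
    · omega
    · omega
    · rw [hX h]; omega
    · omega
    · rw [hX h]; omega
    · omega
    · rw [hX h]; omega
  -- the same with `c X`
  have J2 : ∀ a b : List ℕ, S (W P Q (a ++ ((z :: c :: (X N 0 ++ [z'])) ++ b)))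
      (W P Q (a ++ (((List.replicate α (c :: X N 0)).flatten ++ z ::
        ((List.replicate β (c :: X N 0)).flatten ++ z' ::
          (List.replicate γ (c :: X N 0)).flatten)) ++ b))) := by
    intro a b
    have h1 := w.sub (fun a => if a = c then c :: X N 0 else [a]) (by
      intro b hb a ha
      by_cases h0 : b = c
      · simp only [h0, if_true] at ha
        rcases List.mem_cons.1 ha with h | h
        · rw [h]; exact hc
        · rw [List.eq_of_mem_replicate h]
      · simp only [h0, if_false] at ha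
        rw [List.mem_singleton.1 ha]; exact hb) hJ
    rw [W_flat _ _ _ (by intro a ha; rw [if_neg (by omega)]),
      W_flat _ _ _ (by intro a ha; rw [if_neg (by omega)])] at h1
    have hz : z ≠ c := by omega
    have hz' : z' ≠ c := by omega
    have e1 : [z, c, z'].flatMap (fun a => if a = c then c :: X N 0 else [a]) =
        z :: c :: (X N 0 ++ [z']) := by
      simp [hz, hz']
    have e2 : (X α c ++ z :: (X β c ++ z' :: X γ c)).flatMap
        (fun a => if a = c then c :: X N 0 else [a]) =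
        (List.replicate α (c :: X N 0)).flatten ++ z ::
        ((List.replicate β (c :: X N 0)).flatten ++ z' ::
          (List.replicate γ (c :: X N 0)).flatten) := by
      rw [List.flatMap_append, List.flatMap_cons, List.flatMap_append, List.flatMap_cons, X_flat,
        X_flat, X_flat, if_pos rfl, if_neg hz, if_neg hz']
      rfl
    rw [e1, e2] at h1
    apply hC N S w P Q (fun e => decide (e + 1 = m + 1 ∨ e = m + 1)) _ _ a b hnd _ h1
    intro a ha
    have hX : ∀ {k : ℕ}, a ∈ (List.replicate k (c :: X N 0)).flatten → a % 3 = 0 := by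
      intro k h
      rw [List.mem_flatten] at h
      obtain ⟨l, hl, ha⟩ := h
      rw [List.eq_of_mem_replicate hl] at ha
      rcases List.mem_cons.1 ha with h | h
      · rw [h]; exact hc
      · rw [List.eq_of_mem_replicate h]
    simp only [List.mem_append, List.mem_cons, List.not_mem_nil, or_false] at ha
    rcases ha with (h | h | h | h) | h | h | h | h | h
    · omega
    · omega
    · rw [List.eq_of_mem_replicate h]; omega
    · omega
    · have := hX h; omega
    · omega
    · have := hX h; omega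
    · omega
    · have := hX h; omega
  obtain ⟨α', rfl⟩ : ∃ α', α = α' + 1 := ⟨α - 1, by omega⟩
  obtain ⟨γ', rfl⟩ : ∃ γ', γ = γ' + 1 := ⟨γ - 1, by omega⟩
  obtain ⟨N', hN'⟩ : ∃ N', N = N' + 1 := ⟨N - 1, by omega⟩
  have eα : X (α' + 1) c = X α' c ++ [c] := by rw [X, X, List.replicate_succ']
  have eγ : X (γ' + 1) c = c :: X γ' c := by rw [X, X, List.replicate_succ]
  have eN : X N 0 = X N' 0 ++ [0] := by rw [hN', X, X, List.replicate_succ']
  have eN' : X N 0 = 0 :: X N' 0 := by rw [hN', X, X, List.replicate_succ]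
  have hXz : ∀ a ∈ X N 0, a = 0 := fun a ha => List.eq_of_mem_replicate ha
  -- the substitution in `Run`
  have hrs := w.sub (fs m (α' + 1) (γ' + 1)) (fs_heavy m (α' + 1) (γ' + 1)) hr
  rw [W_flat _ _ _ (fs_light m _ _), W_flat _ _ _ (fs_light m _ _)] at hrs
  have n1 := fs_no2 (m := m) (α := α' + 1) (γ := γ' + 1)
    (cr_no2 (N := N) (g := g0 m) (s := []) (k := m + 1 + l) (by simp))
  have n2 := fs_no2 (m := m) (α := α' + 1) (γ := γ' + 1)
    (cr_no2 (N := N) (g := g0 m) (s := X N 0) (k := m + 1 + l) hXz)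
  have hrE := hE N S w P Q _ _ (if m = 0 then X (α' + 1) c else []) (if l = 0 then X (γ' + 1) c else [])
    (by
      intro a ha
      have : a % 3 ≠ 2 := by
        rcases List.mem_append.1 ha with h | h
        exacts [n1 a h, n2 a h]
      omega) hrs
  have eXf : (X N 0).flatMap (fs m (α' + 1) (γ' + 1)) = X N 0 :=
    flat_fix (fun a ha => by rw [hXz a ha]; exact fs_zero _ _ _)
  have ef : ∀ s : List ℕ, (∀ a ∈ s, a = 0) →
      (X N 0 ++ (cr (g0 m) s 0 (m + 1 + l) ++ X N 0)).flatMap (fs m (α' + 1) (γ' + 1)) =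
      (X N 0 ++ (hdl (g0 m) s m).flatMap (fs m (α' + 1) (γ' + 1))) ++ ((z :: (s ++ [z'])) ++
        ((tl (g0 m) s (m + 1) l).flatMap (fs m (α' + 1) (γ' + 1)) ++ X N 0)) := by
    intro s hs
    have es : s.flatMap (fs m (α' + 1) (γ' + 1)) = s :=
      flat_fix (fun a ha => by rw [hs a ha]; exact fs_zero _ _ _)
    rw [hcr0, List.flatMap_append, List.flatMap_append, List.flatMap_append, List.flatMap_cons,
      List.flatMap_append, List.flatMap_cons, eXf, es, fs_light _ _ _ z (by omega),
      fs_light _ _ _ z' (by omega)]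
    simp only [List.append_assoc, List.cons_append, List.nil_append]
  rw [ef [] (by simp), ef (X N 0) hXz] at hrE
  generalize hu0 : (if m = 0 then X (α' + 1) c else []) = u0 at hrE
  generalize hv0 : (if l = 0 then X (γ' + 1) c else []) = v0 at hrE
  have hαh : ∀ a ∈ X (α' + 1) c, a % 3 = 0 := heavy_X hc
  have hγh : ∀ a ∈ X (γ' + 1) c, a % 3 = 0 := heavy_X hc
  have hXh : ∀ a ∈ X N 0, a % 3 = 0 := heavy_X rfl
  have c1 : ∀ a, (X N 0).count a % N = 0 := fun a => count_XN
  -- the four pieces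
  have lA : S (u0 ++ (X N 0 ++ (hdl (g0 m) [] m).flatMap (fs m (α' + 1) (γ' + 1))))
      (X N 0 ++ (hdl g1 [] m ++ X (α' + 1) c)) := by
    rcases hdl_fs (m := m) (α := α' + 1) (γ := γ' + 1) (s := []) (by simp) with ⟨h1, h2⟩ |
      ⟨A, h1, h2, h3⟩
    · rw [h1, ← hu0, if_pos h2]
      subst h2
      show S (X (α' + 1) c ++ (X N 0 ++ [])) (X N 0 ++ ([] ++ X (α' + 1) c))
      rw [List.append_nil, List.nil_append]
      exact hv_comm hy w hαh hXh
    · rw [h1, h2, ← hu0, if_neg (by omega), hcc]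
      have : [] ++ (X N 0 ++ (A ++ (3 * m + 3) :: (X (α' + 1) c ++ []))) =
          X N 0 ++ ((A ++ [3 * m + 3]) ++ X (α' + 1) c) := by
        simp only [List.append_assoc, List.cons_append, List.nil_append, List.append_nil]
      rw [this]
      exact w.refl _
  have lAX : S (u0 ++ (X N 0 ++ (hdl (g0 m) (X N 0) m).flatMap (fs m (α' + 1) (γ' + 1))))
      (X N 0 ++ (hdl g1 (X N 0) m ++ (X (α' + 1) c ++ X N 0))) := by
    rcases hdl_fs (m := m) (α := α' + 1) (γ := γ' + 1) (s := X N 0) hXz with ⟨h1, h2⟩ |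
      ⟨A, h1, h2, h3⟩
    · rw [h1, ← hu0, if_pos h2]
      subst h2
      show S (X (α' + 1) c ++ (X N 0 ++ [])) (X N 0 ++ ([] ++ (X (α' + 1) c ++ X N 0)))
      rw [List.append_nil, List.nil_append]
      exact hv_ins hy w (u1 := []) (by simp) (u2 := X (α' + 1) c ++ X N 0) (by
        intro a ha
        rcases List.mem_append.1 ha with h | h
        exacts [hαh a h, hXh a h]) (fun a ha => List.mem_append_right _ (List.mem_append_right _ ha))
        c1
    · rw [h1, h2, ← hu0, if_neg (by omega), hcc]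
      have h4 : S ([3 * m + 3] ++ (X (α' + 1) c ++ X N 0)) ([3 * m + 3] ++ (X N 0 ++
          (X (α' + 1) c ++ X N 0))) :=
        hv_ins hy w (by simp) (by
          intro a ha
          rcases List.mem_append.1 ha with h | h
          exacts [hαh a h, hXh a h]) (fun a ha => List.mem_append_right _ (List.mem_append_right _ ha))
          c1
      have h5 := wo_ctx w (X N 0 ++ A) [] h4
      have e1 : X N 0 ++ A ++ ([3 * m + 3] ++ (X (α' + 1) c ++ X N 0) ++ []) =
          [] ++ (X N 0 ++ (A ++ (3 * m + 3) :: (X (α' + 1) c ++ X N 0))) := by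
        simp only [List.append_assoc, List.cons_append, List.nil_append, List.append_nil]
      have e2 : X N 0 ++ A ++ ([3 * m + 3] ++ (X N 0 ++ (X (α' + 1) c ++ X N 0)) ++ []) =
          X N 0 ++ ((A ++ (3 * m + 3) :: X N 0) ++ (X (α' + 1) c ++ X N 0)) := by
        simp only [List.append_assoc, List.cons_append, List.nil_append, List.append_nil]
      rw [e1, e2] at h5
      exact h5
  have rB : S ((tl (g0 m) [] (m + 1) l).flatMap (fs m (α' + 1) (γ' + 1)) ++ (X N 0 ++ v0))
      (X (γ' + 1) c ++ (tl g1 [] (m + 1) l ++ X N 0)) := by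
    rcases tl_fs (m := m) (l := l) (α := α' + 1) (γ := γ' + 1) (s := []) (by simp) with
      ⟨h1, h1', h2⟩ | ⟨B, h1, h2, h3⟩
    · rw [h1, h1', ← hv0, if_pos h2, List.nil_append, List.nil_append]
      exact hv_comm hy w hXh hγh
    · rw [h1, h2, ← hv0, if_neg (by omega), hcc, List.append_nil]
      have : X (γ' + 1) c ++ (3 * (m + 2) + 3) :: ([] ++ B) ++ X N 0 =
          X (γ' + 1) c ++ ((3 * (m + 2) + 3) :: ([] ++ B) ++ X N 0) := by
        simp only [List.append_assoc, List.cons_append]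
      rw [this]
      exact w.refl _
  have rBX : S ((tl (g0 m) (X N 0) (m + 1) l).flatMap (fs m (α' + 1) (γ' + 1)) ++ (X N 0 ++ v0))
      ((X (γ' + 1) c ++ X N 0) ++ (tl g1 (X N 0) (m + 1) l ++ X N 0)) := by
    rcases tl_fs (m := m) (l := l) (α := α' + 1) (γ := γ' + 1) (s := X N 0) hXz with
      ⟨h1, h1', h2⟩ | ⟨B, h1, h2, h3⟩
    · rw [h1, h1', ← hv0, if_pos h2, List.nil_append, List.nil_append]
      refine w.trans (hv_comm hy w hXh hγh) ?_
      rw [List.append_assoc]
      exact hv_ins hy w hγh hXh (fun a ha => List.mem_append_right _ ha) c1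
    · rw [h1, h2, ← hv0, if_neg (by omega), hcc, List.append_nil]
      have h4 : S (X (γ' + 1) c ++ ((3 * (m + 2) + 3) :: X N 0)) (X (γ' + 1) c ++ (X N 0 ++
          ((3 * (m + 2) + 3) :: X N 0))) :=
        hv_ins hy w hγh (by
          intro a ha
          rcases List.mem_cons.1 ha with h | h
          · omega
          · exact hXh a h) (fun a ha => List.mem_append_right _ (List.mem_cons_of_mem _ ha)) c1
      have h5 := wo_ctx w [] (B ++ X N 0) h4
      have e1 : [] ++ (X (γ' + 1) c ++ ((3 * (m + 2) + 3) :: X N 0) ++ (B ++ X N 0)) =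
          X (γ' + 1) c ++ (3 * (m + 2) + 3) :: (X N 0 ++ B) ++ X N 0 := by
        simp only [List.append_assoc, List.cons_append, List.nil_append]
      have e2 : [] ++ (X (γ' + 1) c ++ (X N 0 ++ ((3 * (m + 2) + 3) :: X N 0)) ++ (B ++ X N 0)) =
          X (γ' + 1) c ++ X N 0 ++ ((3 * (m + 2) + 3) :: (X N 0 ++ B) ++ X N 0) := by
        simp only [List.append_assoc, List.cons_append, List.nil_append]
      rw [e1, e2] at h5
      exact h5
  have key : S (W P Q ((X N 0 ++ (hdl g1 [] m ++ X (α' + 1) c)) ++ ([z, z'] ++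
        (X (γ' + 1) c ++ (tl g1 [] (m + 1) l ++ X N 0)))))
      (W P Q ((X N 0 ++ (hdl g1 (X N 0) m ++ (X (α' + 1) c ++ X N 0))) ++ ((z :: (X N 0 ++ [z'])) ++
        ((X (γ' + 1) c ++ X N 0) ++ (tl g1 (X N 0) (m + 1) l ++ X N 0))))) := by
    have k1 := W_app w P Q [z, z'] lA rB
    have k2 := W_app w P Q (z :: (X N 0 ++ [z'])) lAX rBX
    refine w.trans (w.symm k1) (w.trans ?_ k2)
    have e1 : ∀ HA TB s : List ℕ, u0 ++ ((X N 0 ++ HA) ++ ((z :: (s ++ [z'])) ++ (TB ++ X N 0)) ++ v0) =
        (u0 ++ (X N 0 ++ HA)) ++ ((z :: (s ++ [z'])) ++ (TB ++ (X N 0 ++ v0))) := by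
      intro HA TB s
      simp only [List.append_assoc]
    rw [e1, e1] at hrE
    exact hrE
  -- removal of the inner `X` in the filled word
  have rem0 : S (W P Q ((X N 0 ++ (hdl g1 (X N 0) m ++ (X (α' + 1) c ++ X N 0))) ++
        ((z :: (X N 0 ++ [z'])) ++ ((X (γ' + 1) c ++ X N 0) ++ (tl g1 (X N 0) (m + 1) l ++ X N 0)))))
      (W P Q ((X N 0 ++ (hdl g1 (X N 0) m ++ (X (α' + 1) c ++ X N 0))) ++ ([z, z'] ++
        ((X (γ' + 1) c ++ X N 0) ++ (tl g1 (X N 0) (m + 1) l ++ X N 0))))) := by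
    have hc2 : S (X (γ' + 1) c ++ X N 0) (X N 0 ++ X (γ' + 1) c) := hv_comm hy w hγh hXh
    have hc3 := w.app hc2 (w.refl (tl g1 (X N 0) (m + 1) l ++ X N 0))
    have k1 := W_app w P Q (z :: (X N 0 ++ [z']))
      (w.refl (X N 0 ++ (hdl g1 (X N 0) m ++ (X (α' + 1) c ++ X N 0)))) hc3
    have k2 := W_app w P Q [z, z']
      (w.refl (X N 0 ++ (hdl g1 (X N 0) m ++ (X (α' + 1) c ++ X N 0)))) hc3
    refine w.trans k1 (w.trans ?_ (w.symm k2))
    have k3 := r0 (X N 0) (X N 0 ++ (hdl g1 (X N 0) m ++ (X (α' + 1) c ++ X N' 0)))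
      (X N' 0 ++ (X (γ' + 1) c ++ (tl g1 (X N 0) (m + 1) l ++ X N 0)))
      (fun a ha => by rw [hXz a ha]; simp) c1 (Or.inr (by
        intro a ha
        rw [List.mem_singleton.1 ha]
        exact self_mem_X hN))
    rw [hzz, hzz'] at k3
    have e1 : ∀ r : List ℕ, X N 0 ++ (hdl g1 (X N 0) m ++ (X (α' + 1) c ++ X N' 0)) ++ ([0] ++ z ::
        (r ++ z' :: ([0] ++ (X N' 0 ++ (X (γ' + 1) c ++ (tl g1 (X N 0) (m + 1) l ++ X N 0)))))) =
        X N 0 ++ (hdl g1 (X N 0) m ++ (X (α' + 1) c ++ (X N' 0 ++ [0]))) ++ (z :: (r ++ [z']) ++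
        ((0 :: X N' 0) ++ X (γ' + 1) c ++ (tl g1 (X N 0) (m + 1) l ++ X N 0))) := by
      intro r
      simp only [List.append_assoc, List.cons_append, List.nil_append]
    have e2 := e1 (X N 0)
    have e3 := e1 []
    rw [← eN, ← eN'] at e2 e3
    rw [e2] at k3
    refine w.trans k3 ?_
    rw [List.nil_append] at e3
    rw [e3]
    exact w.refl _
  -- the left word
  have left : S (W P Q (X N 0 ++ (cr g1 [] 0 (m + 1 + l) ++ X N 0)))
      (W P Q ((X N 0 ++ (hdl g1 (X N 0) m ++ (X (α' + 1) c ++ X N 0))) ++ ([z, z'] ++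
        ((X (γ' + 1) c ++ X N 0) ++ (tl g1 (X N 0) (m + 1) l ++ X N 0))))) := by
    have k1 := J1 (X N 0 ++ hdl g1 [] m) (tl g1 [] (m + 1) l ++ X N 0)
    have k2 := rc (X β c) (X N 0 ++ (hdl g1 [] m ++ X α' c))
      (X γ' c ++ (tl g1 [] (m + 1) l ++ X N 0))
      (fun a ha => by rw [List.eq_of_mem_replicate ha]; simp) (by
        intro a
        rw [X, List.count_replicate]
        split
        · exact hβ
        · exact Nat.zero_mod N) (by
        rcases Nat.eq_zero_or_pos β with h | h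
        · left; rw [h]; rfl
        · right
          intro a ha
          rw [List.mem_singleton.1 ha]
          exact self_mem_X h)
    rw [hzz, hzz'] at k2
    have e0 : X N 0 ++ (cr g1 [] 0 (m + 1 + l) ++ X N 0) =
        (X N 0 ++ hdl g1 [] m) ++ ([z, c, z'] ++ (tl g1 [] (m + 1) l ++ X N 0)) := by
      rw [hcr]
      simp only [List.append_assoc, List.cons_append, List.nil_append]
    have e1 : (X N 0 ++ hdl g1 [] m) ++ ((X (α' + 1) c ++ z :: (X β c ++ z' :: X (γ' + 1) c)) ++
        (tl g1 [] (m + 1) l ++ X N 0)) = X N 0 ++ (hdl g1 [] m ++ X α' c) ++ ([c] ++ z ::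
        (X β c ++ z' :: ([c] ++ (X γ' c ++ (tl g1 [] (m + 1) l ++ X N 0))))) := by
      rw [eα, eγ]
      simp only [List.append_assoc, List.cons_append, List.nil_append]
    have e2 : X N 0 ++ (hdl g1 [] m ++ X α' c) ++ ([c] ++ z :: z' :: ([c] ++ (X γ' c ++
        (tl g1 [] (m + 1) l ++ X N 0)))) = (X N 0 ++ (hdl g1 [] m ++ X (α' + 1) c)) ++ ([z, z'] ++
        (X (γ' + 1) c ++ (tl g1 [] (m + 1) l ++ X N 0))) := by
      rw [eα, eγ]
      simp only [List.append_assoc, List.cons_append, List.nil_append]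
    rw [e0]
    rw [e1] at k1
    rw [e2] at k2
    exact w.trans k1 (w.trans k2 (w.trans key rem0))
  -- the right word
  have right : S (W P Q (X N 0 ++ (cr g1 (X N 0) 0 (m + 1 + l) ++ X N 0)))
      (W P Q ((X N 0 ++ (hdl g1 (X N 0) m ++ (X (α' + 1) c ++ X N 0))) ++ ([z, z'] ++
        ((X (γ' + 1) c ++ X N 0) ++ (tl g1 (X N 0) (m + 1) l ++ X N 0))))) := by
    have k1 := J2 (X N 0 ++ hdl g1 (X N 0) m) (tl g1 (X N 0) (m + 1) l ++ X N 0)
    have p1 : ((X α' c ++ X N' 0) ++ [c, 0]).Perm (X (α' + 1) c ++ X N 0) := by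
      rw [eα, eN]
      have h1 : ((X α' c ++ X N' 0) ++ [c, 0]).Perm (X α' c ++ ([c, 0] ++ X N' 0)) := by
        rw [List.append_assoc]
        exact List.Perm.append_left _ List.perm_append_comm
      have h2 : (X α' c ++ ([c, 0] ++ X N' 0)).Perm (X α' c ++ [c] ++ (X N' 0 ++ [0])) := by
        have : X α' c ++ ([c, 0] ++ X N' 0) = X α' c ++ [c] ++ ([0] ++ X N' 0) := by
          simp only [List.append_assoc, List.cons_append, List.nil_append]
        rw [this]
        exact List.Perm.append_left _ List.perm_append_comm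
      exact h1.trans h2
    have p2 : ([c, 0] ++ (X γ' c ++ X N' 0)).Perm (X (γ' + 1) c ++ X N 0) := by
      rw [eγ, eN']
      have : [c, 0] ++ (X γ' c ++ X N' 0) = [c] ++ (([0] ++ X γ' c) ++ X N' 0) := by
        simp only [List.cons_append, List.nil_append]
      rw [this]
      have h1 : (([0] ++ X γ' c) ++ X N' 0).Perm ((X γ' c ++ [0]) ++ X N' 0) :=
        List.Perm.append_right _ List.perm_append_comm
      have h2 := List.Perm.append_left [c] h1
      have e : [c] ++ ((X γ' c ++ [0]) ++ X N' 0) = c :: X γ' c ++ 0 :: X N' 0 := by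
        simp only [List.append_assoc, List.cons_append, List.nil_append]
      rw [e] at h2
      exact h2
    have q1 : S (List.replicate (α' + 1) (c :: X N 0)).flatten ((X α' c ++ X N' 0) ++ [c, 0]) :=
      cX_norm hy w hc hc0 (by omega) p1
    have q2 : S (List.replicate (γ' + 1) (c :: X N 0)).flatten ([c, 0] ++ (X γ' c ++ X N' 0)) :=
      cX_norm hy w hc hc0 (by omega) p2
    have q3 : S (List.replicate (α' + 1) (c :: X N 0)).flatten (X (α' + 1) c ++ X N 0) :=
      cX_norm hy w hc hc0 (by omega) (List.Perm.refl _)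
    have q4 : S (List.replicate (γ' + 1) (c :: X N 0)).flatten (X (γ' + 1) c ++ X N 0) :=
      cX_norm hy w hc hc0 (by omega) (List.Perm.refl _)
    have k2 := rc0 (List.replicate β (c :: X N 0)).flatten
      (X N 0 ++ (hdl g1 (X N 0) m ++ (X α' c ++ X N' 0)))
      ((X γ' c ++ X N' 0) ++ (tl g1 (X N 0) (m + 1) l ++ X N 0))
      (by
        intro a ha
        rw [List.mem_flatten] at ha
        obtain ⟨t, ht, ha⟩ := ha
        rw [List.eq_of_mem_replicate ht] at ha
        rcases List.mem_cons.1 ha with h | h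
        · rw [h]; simp
        · rw [hXz a h]; simp) (by
        intro a
        rw [count_flat, Nat.mul_mod, hβ, Nat.zero_mul, Nat.zero_mod]) (by
        rcases Nat.eq_zero_or_pos β with h | h
        · left; rw [h]; rfl
        · right
          intro a ha
          rw [mem_flat h]
          simp only [List.mem_cons, List.not_mem_nil, or_false] at ha
          rcases ha with h1 | h1
          · rw [h1]; exact List.mem_cons_self ..
          · rw [h1]; exact List.mem_cons_of_mem _ (self_mem_X hN))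
    rw [hzz, hzz'] at k2
    have e0 : X N 0 ++ (cr g1 (X N 0) 0 (m + 1 + l) ++ X N 0) =
        (X N 0 ++ hdl g1 (X N 0) m) ++ ((z :: c :: (X N 0 ++ [z'])) ++
          (tl g1 (X N 0) (m + 1) l ++ X N 0)) := by
      rw [hcr]
      simp only [List.append_assoc, List.cons_append, List.nil_append]
    -- replace the two powers
    have k3 : S (W P Q ((X N 0 ++ hdl g1 (X N 0) m) ++ (((List.replicate (α' + 1) (c :: X N 0)).flatten ++
        z :: ((List.replicate β (c :: X N 0)).flatten ++ z' ::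
          (List.replicate (γ' + 1) (c :: X N 0)).flatten)) ++ (tl g1 (X N 0) (m + 1) l ++ X N 0))))
        (W P Q (X N 0 ++ (hdl g1 (X N 0) m ++ (X α' c ++ X N' 0)) ++ ([c, 0] ++ z ::
        ((List.replicate β (c :: X N 0)).flatten ++ z' :: ([c, 0] ++ ((X γ' c ++ X N' 0) ++
          (tl g1 (X N 0) (m + 1) l ++ X N 0))))))) := by
      have a1 := w.app (w.refl (X N 0 ++ hdl g1 (X N 0) m)) q1
      have a2 := w.app q2 (w.refl (tl g1 (X N 0) (m + 1) l ++ X N 0))
      have a3 := W_app w P Q (z :: ((List.replicate β (c :: X N 0)).flatten ++ [z'])) a1 a2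
      have e1 : ∀ U V T : List ℕ, ((X N 0 ++ hdl g1 (X N 0) m) ++ U) ++
          ((z :: ((List.replicate β (c :: X N 0)).flatten ++ [z'])) ++ (V ++ T)) =
          (X N 0 ++ hdl g1 (X N 0) m) ++ ((U ++ z :: ((List.replicate β (c :: X N 0)).flatten ++
            z' :: V)) ++ T) := by
        intro U V T
        simp only [List.append_assoc, List.cons_append, List.nil_append]
      rw [e1, e1] at a3
      have e2 : (X N 0 ++ hdl g1 (X N 0) m) ++ ((((X α' c ++ X N' 0) ++ [c, 0]) ++ z ::
          ((List.replicate β (c :: X N 0)).flatten ++ z' :: ([c, 0] ++ (X γ' c ++ X N' 0)))) ++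
          (tl g1 (X N 0) (m + 1) l ++ X N 0)) =
          X N 0 ++ (hdl g1 (X N 0) m ++ (X α' c ++ X N' 0)) ++ ([c, 0] ++ z ::
        ((List.replicate β (c :: X N 0)).flatten ++ z' :: ([c, 0] ++ ((X γ' c ++ X N' 0) ++
          (tl g1 (X N 0) (m + 1) l ++ X N 0))))) := by
        simp only [List.append_assoc, List.cons_append, List.nil_append]
      rw [e2] at a3
      exact a3
    have k4 : S (W P Q (X N 0 ++ (hdl g1 (X N 0) m ++ (X α' c ++ X N' 0)) ++ ([c, 0] ++ z :: z' ::
        ([c, 0] ++ ((X γ' c ++ X N' 0) ++ (tl g1 (X N 0) (m + 1) l ++ X N 0))))))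
        (W P Q ((X N 0 ++ (hdl g1 (X N 0) m ++ (X (α' + 1) c ++ X N 0))) ++ ([z, z'] ++
        ((X (γ' + 1) c ++ X N 0) ++ (tl g1 (X N 0) (m + 1) l ++ X N 0))))) := by
      have a1 := w.app (w.refl (X N 0 ++ hdl g1 (X N 0) m)) (w.trans (w.symm q1) q3)
      have a2 := w.app (w.trans (w.symm q2) q4) (w.refl (tl g1 (X N 0) (m + 1) l ++ X N 0))
      have a3 := W_app w P Q [z, z'] a1 a2
      have e1 : (X N 0 ++ hdl g1 (X N 0) m) ++ ((X α' c ++ X N' 0) ++ [c, 0]) ++ ([z, z'] ++
          ([c, 0] ++ (X γ' c ++ X N' 0) ++ (tl g1 (X N 0) (m + 1) l ++ X N 0))) =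
          X N 0 ++ (hdl g1 (X N 0) m ++ (X α' c ++ X N' 0)) ++ ([c, 0] ++ z :: z' ::
        ([c, 0] ++ ((X γ' c ++ X N' 0) ++ (tl g1 (X N 0) (m + 1) l ++ X N 0)))) := by
        simp only [List.append_assoc, List.cons_append, List.nil_append]
      have e2 : (X N 0 ++ hdl g1 (X N 0) m) ++ (X (α' + 1) c ++ X N 0) ++ ([z, z'] ++
          (X (γ' + 1) c ++ X N 0 ++ (tl g1 (X N 0) (m + 1) l ++ X N 0))) =
          (X N 0 ++ (hdl g1 (X N 0) m ++ (X (α' + 1) c ++ X N 0))) ++ ([z, z'] ++
        ((X (γ' + 1) c ++ X N 0) ++ (tl g1 (X N 0) (m + 1) l ++ X N 0))) := by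
        simp only [List.append_assoc]
      rw [e1, e2] at a3
      exact a3
    rw [e0]
    exact w.trans k1 (w.trans k3 (w.trans k2 k4))
  exact w.trans left (w.symm right)

/-- **REM** -/
theorem rem (hy : HvyStmt) (hC : CtxStmt) (hE : EndStmt) : RemStmt := by
  intro N S w P Q k j hk hf hP hj hjk hJ hr
  obtain ⟨m, rfl⟩ : ∃ m, j = m + 1 := ⟨j - 1, by omega⟩
  obtain ⟨l, rfl⟩ : ∃ l, k = m + 1 + l := ⟨k - (m + 1), by omega⟩
  exact rem_main hy hC hE w hf hP hJ hr

end Pool.Agent.MWV.H28
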